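import Pool.Agent.Helper16.Abund.Trace3
import Pool.Agent.Helper16.Abund.Defs2

/-! Packet S4: symplectic real linear maps have large complex linear part. -/

open scoped Manifold ContDiff ENNReal Topology ComplexConjugate ComplexOrder
open MeasureTheory Metric

namespace Pool.Agent.Helper83.Abund

open Pool.Agent.Helper16.Abund Matrix
open scoped MatrixOrder

variable {k : ℕ}

theorem herm_eq (A : Matrix (Fin k) (Fin k) ℂ) (u v : Fin k → ℂ) :
    herm A u v = star v ⬝ᵥ (Aᵀ *ᵥ u) := by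
  have h : star v ⬝ᵥ (Aᵀ *ᵥ u) = ∑ j, star (v j) * ∑ i, A i j * u i := rfl
  rw [h]
  unfold herm
  rw [Finset.sum_comm]
  refine Finset.sum_congr rfl fun j _ => ?_
  rw [Finset.mul_sum]
  refine Finset.sum_congr rfl fun i _ => ?_
  rw [starRingEnd_apply]
  ring

theorem herm_one (u v : Fin k → ℂ) : herm 1 u v = ∑ i, u i * conj (v i) := by
  rw [herm_eq, transpose_one, one_mulVec]
  unfold dotProduct
  refine Finset.sum_congr rfl fun i _ => ?_
  rw [Pi.star_apply, starRingEnd_apply, mul_comm]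

/-- a positive definite Hermitian form is the standard one after a linear change of variables -/
theorem exists_equiv {A : Matrix (Fin k) (Fin k) ℂ} (hA : A.PosDef) :
    ∃ R : (Fin k → ℂ) ≃ₗ[ℂ] (Fin k → ℂ), ∀ u v, herm A u v = herm 1 (R u) (R v) := by
  have hAt : Aᵀ.PosDef := hA.transpose
  obtain ⟨B, hB'⟩ := CStarAlgebra.nonneg_iff_eq_star_mul_self.mp hAt.posSemidef.nonneg
  have hB : Aᵀ = Bᴴ * B := hB'
  have hdet : B.det ≠ 0 := by
    intro h
    have h1 : Aᵀ.det = 0 := by rw [hB, det_mul, h, mul_zero]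
    exact (ne_of_gt hAt.det_pos) h1
  have hU : IsUnit (LinearMap.det (Matrix.toLin' B)) := by
    rw [LinearMap.det_toLin']
    exact isUnit_iff_ne_zero.2 hdet
  refine ⟨LinearEquiv.ofIsUnitDet (f := Matrix.toLin' B) (v := Pi.basisFun ℂ (Fin k))
    (v' := Pi.basisFun ℂ (Fin k)) (by
      rw [LinearMap.det_toMatrix] at *
      exact hU), fun u v => ?_⟩
  rw [herm_eq, herm_eq, hB, transpose_one, one_mulVec]
  simp only [LinearEquiv.ofIsUnitDet_apply, Matrix.toLin'_apply]
  rw [star_mulVec, ← dotProduct_mulVec, mulVec_mulVec]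

/-- one complex coordinate -/
theorem coord (x y : ℂ) :
    ‖(1 / 2 : ℂ) * (x - Complex.I * y)‖ ^ 2 = ‖(1 / 2 : ℂ) * (x + Complex.I * y)‖ ^ 2 -
      (x * conj y).im := by
  rw [← Complex.normSq_eq_norm_sq, ← Complex.normSq_eq_norm_sq, Complex.normSq_apply,
    Complex.normSq_apply]
  simp
  ring

/-- the normalised case -/
theorem alpha_ge (L : (Fin k → ℂ) →ₗ[ℝ] (Fin k → ℂ))
    (hL : ∀ u v, (herm 1 (L u) (L v)).im = (herm (1 : Matrix (Fin k) (Fin k) ℂ) u v).im)
    (α : (Fin k → ℂ) →ₗ[ℂ] (Fin k → ℂ))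
    (hα : ∀ u, α u = (1 / 2 : ℂ) • (L u - Complex.I • L (Complex.I • u))) (u : Fin k → ℂ) :
    ∑ i, ‖u i‖ ^ 2 ≤ ∑ i, ‖α u i‖ ^ 2 := by
  have h1 : ∑ i, ‖α u i‖ ^ 2 =
      ∑ i, (‖(1 / 2 : ℂ) * (L u i + Complex.I * L (Complex.I • u) i)‖ ^ 2 -
        (L u i * conj (L (Complex.I • u) i)).im) := by
    refine Finset.sum_congr rfl fun i _ => ?_
    rw [← coord, hα]
    simp [smul_eq_mul]
  have h2 : ∑ i, (L u i * conj (L (Complex.I • u) i)).im = - ∑ i, ‖u i‖ ^ 2 := by
    rw [← Complex.im_sum, ← herm_one, hL, herm_one, Complex.im_sum, ← Finset.sum_neg_distrib]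
    refine Finset.sum_congr rfl fun i _ => ?_
    rw [Pi.smul_apply, smul_eq_mul, ← Complex.normSq_eq_norm_sq, Complex.normSq_apply]
    simp only [Complex.mul_im, Complex.mul_re, map_mul, Complex.conj_I, Complex.conj_re,
      Complex.conj_im, Complex.neg_re, Complex.neg_im, Complex.I_re, Complex.I_im]
    ring
  rw [h1, Finset.sum_sub_distrib, h2]
  have h3 : 0 ≤ ∑ i, ‖(1 / 2 : ℂ) * (L u i + Complex.I * L (Complex.I • u) i)‖ ^ 2 :=
    Finset.sum_nonneg fun i _ => by positivity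
  linarith

theorem one_le_norm_prod (s : Multiset ℂ) (hs : ∀ z ∈ s, 1 ≤ ‖z‖) : 1 ≤ ‖s.prod‖ := by
  induction s using Multiset.induction_on with
  | empty => simp
  | cons a s ih =>
    rw [Multiset.prod_cons, norm_mul]
    exact one_le_mul_of_one_le_of_one_le (hs a (Multiset.mem_cons_self a s))
      (ih fun z hz => hs z (Multiset.mem_cons_of_mem hz))

/-- an expanding complex linear map has determinant at least one -/
theorem one_le_det (α : (Fin k → ℂ) →ₗ[ℂ] (Fin k → ℂ))
    (h : ∀ u : Fin k → ℂ, ∑ i, ‖u i‖ ^ 2 ≤ ∑ i, ‖α u i‖ ^ 2) : 1 ≤ ‖LinearMap.det α‖ := by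
  have h1 := Module.End.det_eq_prod_roots_charpoly_of_splits (f := α)
    (IsAlgClosed.splits _)
  rw [h1]
  refine one_le_norm_prod _ fun z hz => ?_
  have hroot := (Polynomial.mem_roots'.1 hz).2
  rw [← Module.End.hasEigenvalue_iff_isRoot_charpoly] at hroot
  obtain ⟨u, hu⟩ := hroot.exists_hasEigenvector
  have h2 := h u
  rw [hu.apply_eq_smul] at h2
  have h3 : ∑ i, ‖(z • u) i‖ ^ 2 = ‖z‖ ^ 2 * ∑ i, ‖u i‖ ^ 2 := by
    rw [Finset.mul_sum]
    refine Finset.sum_congr rfl fun i _ => ?_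
    rw [Pi.smul_apply, norm_smul, mul_pow]
  have h4 : 0 < ∑ i, ‖u i‖ ^ 2 := by
    obtain ⟨i, hi⟩ := Function.ne_iff.1 hu.2
    exact Finset.sum_pos' (fun j _ => by positivity) ⟨i, Finset.mem_univ i, by
      have : 0 < ‖u i‖ := norm_pos_iff.2 hi
      positivity⟩
  rw [h3] at h2
  have h5 : 1 ≤ ‖z‖ ^ 2 := by
    by_contra hc
    push Not at hc
    nlinarith
  by_contra hc
  push Not at hc
  nlinarith [norm_nonneg z]

/-- the standard symplectic form -/
noncomputable def omega (k : ℕ) : LinearMap.BilinForm ℝ (Fin k → ℂ) :=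
  LinearMap.mk₂ ℝ (fun u v => (herm (1 : Matrix (Fin k) (Fin k) ℂ) u v).im)
    (by
      intro u u' v
      simp only [herm_one, Pi.add_apply, add_mul, Finset.sum_add_distrib, Complex.add_im])
    (by
      intro c u v
      simp only [herm_one, Pi.smul_apply, Complex.real_smul, mul_assoc, ← Finset.mul_sum,
        Complex.im_ofReal_mul, smul_eq_mul])
    (by
      intro u v v'
      simp only [herm_one, Pi.add_apply, map_add, mul_add, Finset.sum_add_distrib, Complex.add_im])
    (by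
      intro c u v
      have h : ∀ i, u i * conj ((c • v) i) = (c : ℂ) * (u i * conj (v i)) := by
        intro i
        rw [Pi.smul_apply, Complex.real_smul, map_mul, Complex.conj_ofReal]
        ring
      simp only [herm_one, h, ← Finset.mul_sum, Complex.im_ofReal_mul, smul_eq_mul])

theorem omega_apply (u v : Fin k → ℂ) :
    omega k u v = (herm (1 : Matrix (Fin k) (Fin k) ℂ) u v).im := rfl

theorem omega_self (u : Fin k → ℂ) : omega k u (Complex.I • u) = - ∑ i, ‖u i‖ ^ 2 := by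
  rw [omega_apply, herm_one, Complex.im_sum, ← Finset.sum_neg_distrib]
  refine Finset.sum_congr rfl fun i _ => ?_
  rw [Pi.smul_apply, smul_eq_mul, ← Complex.normSq_eq_norm_sq, Complex.normSq_apply]
  simp only [Complex.mul_im, Complex.mul_re, map_mul, Complex.conj_I, Complex.conj_re,
    Complex.conj_im, Complex.neg_re, Complex.neg_im, Complex.I_re, Complex.I_im]
  ring

theorem omega_self' (u : Fin k → ℂ) : omega k (Complex.I • u) u = ∑ i, ‖u i‖ ^ 2 := by
  rw [omega_apply, herm_one, Complex.im_sum]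
  refine Finset.sum_congr rfl fun i _ => ?_
  rw [Pi.smul_apply, smul_eq_mul, ← Complex.normSq_eq_norm_sq, Complex.normSq_apply]
  simp only [Complex.mul_im, Complex.mul_re, Complex.conj_re,
    Complex.conj_im, Complex.I_re, Complex.I_im]
  ring

theorem eq_zero_of_sum {u : Fin k → ℂ} (h : ∑ i, ‖u i‖ ^ 2 = 0) : u = 0 := by
  rw [Finset.sum_eq_zero_iff_of_nonneg (fun i _ => by positivity)] at h
  funext i
  have := h i (Finset.mem_univ i)
  simpa using this

theorem omega_nondegenerate : (omega k).Nondegenerate := by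
  constructor
  · intro u hu
    have := hu (Complex.I • u)
    rw [omega_self] at this
    exact eq_zero_of_sum (by linarith)
  · intro u hu
    have := hu (Complex.I • u)
    rw [omega_self'] at this
    exact eq_zero_of_sum this

theorem abs_det_eq_one (L : (Fin k → ℂ) →ₗ[ℝ] (Fin k → ℂ))
    (hL : ∀ u v, (herm 1 (L u) (L v)).im = (herm (1 : Matrix (Fin k) (Fin k) ℂ) u v).im) :
    |LinearMap.det L| = 1 := by
  have h1 : (omega k).comp L L = omega k := by
    ext u v
    simp [LinearMap.BilinForm.comp_apply, omega_apply, hL]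
  set b := Module.finBasis ℝ (Fin k → ℂ) with hb
  have h2 := LinearMap.BilinForm.toMatrix_comp b b (omega k) L L
  rw [h1] at h2
  have h3 := congrArg Matrix.det h2
  rw [det_mul, det_mul, det_transpose, LinearMap.det_toMatrix] at h3
  have h4 : (LinearMap.BilinForm.toMatrix b (omega k)).det ≠ 0 :=
    (LinearMap.BilinForm.nondegenerate_iff_det_ne_zero b).1 omega_nondegenerate
  have h5 : LinearMap.det L * LinearMap.det L = 1 := by
    have : (LinearMap.BilinForm.toMatrix b (omega k)).det * 1 =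
        (LinearMap.BilinForm.toMatrix b (omega k)).det * (LinearMap.det L * LinearMap.det L) := by
      linarith
    exact (mul_left_cancel₀ h4 this).symm
  have h6 : |LinearMap.det L| * |LinearMap.det L| = 1 := by rw [abs_mul_abs_self]; exact h5
  nlinarith [abs_nonneg (LinearMap.det L)]

theorem det_restrict (R : (Fin k → ℂ) →ₗ[ℂ] (Fin k → ℂ)) :
    LinearMap.det (R.restrictScalars ℝ) = ‖LinearMap.det R‖ ^ 2 := by
  simp [LinearMap.det_restrictScalars, Algebra.norm_complex_eq, Complex.normSq_eq_norm_sq]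

theorem det_le_of_symplectic {k : ℕ} {A₁ A : Matrix (Fin k) (Fin k) ℂ} (h₁ : A₁.PosDef)
    (h : A.PosDef) (L : (Fin k → ℂ) →ₗ[ℝ] (Fin k → ℂ))
    (hL : ∀ u v, (herm A (L u) (L v)).im = (herm A₁ u v).im)
    (α : (Fin k → ℂ) →ₗ[ℂ] (Fin k → ℂ))
    (hα : ∀ u, α u = (1 / 2 : ℂ) • (L u - Complex.I • L (Complex.I • u))) :
    LinearMap.det α ≠ 0 ∧ |LinearMap.det L| ≤ ‖LinearMap.det α‖ ^ 2 := by
  obtain ⟨R₁, hR₁⟩ := exists_equiv h₁
  obtain ⟨R, hR⟩ := exists_equiv h
  set S : (Fin k → ℂ) →ₗ[ℂ] (Fin k → ℂ) := R₁.symm.toLinearMap with hS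
  set T : (Fin k → ℂ) →ₗ[ℂ] (Fin k → ℂ) := R.toLinearMap with hT
  set L' : (Fin k → ℂ) →ₗ[ℝ] (Fin k → ℂ) :=
    (T.restrictScalars ℝ) ∘ₗ L ∘ₗ (S.restrictScalars ℝ) with hL'
  set α' : (Fin k → ℂ) →ₗ[ℂ] (Fin k → ℂ) := T ∘ₗ α ∘ₗ S with hα'
  have e1 : ∀ u v, (herm 1 (L' u) (L' v)).im = (herm (1 : Matrix (Fin k) (Fin k) ℂ) u v).im := by
    intro u v
    have : herm 1 (L' u) (L' v) = herm A (L (S u)) (L (S v)) := by
      rw [hR]; rfl
    rw [this, hL, hR₁]
    simp [hS]
  have e2 : ∀ u, α' u = (1 / 2 : ℂ) • (L' u - Complex.I • L' (Complex.I • u)) := by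
    intro u
    simp only [hα', hL', LinearMap.comp_apply, LinearMap.restrictScalars_apply, hα, map_smul,
      map_sub]
  have h3 := one_le_det α' (alpha_ge L' e1 α' e2)
  have h4 := abs_det_eq_one L' e1
  rw [hα', LinearMap.det_comp, LinearMap.det_comp, norm_mul, norm_mul] at h3
  rw [hL', LinearMap.det_comp, LinearMap.det_comp, det_restrict, det_restrict, abs_mul, abs_mul,
    abs_of_nonneg (by positivity : (0 : ℝ) ≤ ‖LinearMap.det T‖ ^ 2),
    abs_of_nonneg (by positivity : (0 : ℝ) ≤ ‖LinearMap.det S‖ ^ 2)] at h4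
  set t := ‖LinearMap.det T‖
  set s := ‖LinearMap.det S‖
  have ht : 0 ≤ t := norm_nonneg _
  have hs : 0 ≤ s := norm_nonneg _
  set x := ‖LinearMap.det α‖ with hx
  have hx0 : 0 ≤ x := norm_nonneg _
  set y := |LinearMap.det L|
  have hy0 : 0 ≤ y := abs_nonneg _
  constructor
  · intro h0
    rw [hx, h0, norm_zero] at h3
    norm_num at h3
  · have h5 : 0 < t * s := by
      rcases (mul_nonneg ht hs).lt_or_eq with h6 | h6
      · exact h6
      · exfalso
        have : t * (x * s) = x * (t * s) := by ring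
        rw [this, ← h6] at h3
        norm_num at h3
    have h6 : y * (t * s) ^ 2 ≤ x ^ 2 * (t * s) ^ 2 := by
      have h7 : y * (t * s) ^ 2 = 1 := by rw [← h4]; ring
      have h8 : x ^ 2 * (t * s) ^ 2 = (t * (x * s)) ^ 2 := by ring
      rw [h7, h8]
      exact one_le_pow₀ h3
    exact le_of_mul_le_mul_right h6 (by positivity)

end Pool.Agent.Helper83.Abund
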